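import Mathlib

/-!
# MP_f9a7a1_al: the invariant `Δ_B` of a block is not determined by the simple modules

The group algebra over `𝔽₃` of `C₃ × S₃` is its own block; all of its simple modules `S` satisfy
`Ext¹(S, S) ≠ 0`, but there is a non-projective module `M` with `Ext¹(M, M) = 0`.
-/

set_option autoImplicit false

namespace Pool.Agent.Results.MP_f9a7a1_al.CyclicTimesSymmetric

open CategoryTheory Abelian

/-- `φ_M = inf { r ≥ 1 : Ext^r(M, M) ≠ 0 }` in `{1, 2, …} ∪ {∞}`, where `inf ∅ = ∞`. -/
noncomputable def phi {R : Type} [Ring R] (M : ModuleCat.{0} R) : ℕ∞ :=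
  ⨅ (r : ℕ) (_ : 1 ≤ r) (_ : Nontrivial (Ext M M r)), (r : ℕ∞)

/-- The algebra `B` is (isomorphic to) a block of the algebra `A` over the field `k`: it is nonzero,
it is indecomposable (`0` and `1` are its only central idempotents), and `A` is isomorphic to
`B × C` for some algebra `C` (possibly zero). -/
def IsBlock (k A B : Type) [Field k] [Ring A] [Algebra k A] [Ring B] [Algebra k B] : Prop :=
  Nontrivial B ∧ (∀ e ∈ Subring.center B, e * e = e → e = 0 ∨ e = 1) ∧
    ∃ (C : Type) (_ : Ring C) (_ : Algebra k C), Nonempty (A ≃ₐ[k] B × C)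

/-- The group `C₃ × S₃` of order `18`. -/
abbrev G18 : Type := Multiplicative (ZMod 3) × DihedralGroup 3

section ExtLemmas

variable {R : Type} [Ring R]

theorem ext_one_subsingleton {S : ShortComplex (ModuleCat.{0} R)} (hS : S.ShortExact)
    [Projective S.X₂] (Y : ModuleCat.{0} R) (h : ∀ f : S.X₁ ⟶ Y, f = 0) :
    Subsingleton (Ext S.X₃ Y 1) := by
  refine ⟨fun a b => ?_⟩
  have key : ∀ x : Ext S.X₃ Y 1, x = 0 := by
    intro x
    obtain ⟨y, hy⟩ := Ext.contravariant_sequence_exact₃ hS Y x (Ext.eq_zero_of_projective _)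
      (add_comm 1 0)
    obtain ⟨f, rfl⟩ := Ext.addEquiv₀.symm.surjective y
    rw [h f, map_zero, Ext.comp_zero] at hy
    exact hy.symm
  rw [key a, key b]

theorem ext_one_nontrivial {S : ShortComplex (ModuleCat.{0} R)} (hS : S.ShortExact)
    (h : ∀ s : S.X₃ ⟶ S.X₂, s ≫ S.g ≠ 𝟙 _) : Nontrivial (Ext S.X₃ S.X₁ 1) := by
  refine ⟨hS.extClass, 0, fun h0 => ?_⟩
  obtain ⟨x, hx⟩ := Ext.covariant_sequence_exact₃ S.X₃ hS (Ext.mk₀ (𝟙 S.X₃)) (zero_add 1)
    (by rw [h0, Ext.comp_zero])
  obtain ⟨s, rfl⟩ := Ext.addEquiv₀.symm.surjective x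
  refine h s ?_
  apply Ext.addEquiv₀.symm.injective
  simpa using hx

theorem phi_eq_one (M : ModuleCat.{0} R) (h : Nontrivial (Ext M M 1)) : phi M = 1 := by
  apply le_antisymm
  · refine (iInf_le _ 1).trans ((iInf_le _ le_rfl).trans ((iInf_le _ h).trans ?_))
    simp
  · refine le_iInf fun r => le_iInf fun hr => le_iInf fun _ => ?_
    exact_mod_cast hr

theorem two_le_phi (M : ModuleCat.{0} R) (h : Subsingleton (Ext M M 1)) : 2 ≤ phi M := by
  refine le_iInf fun r => le_iInf fun hr => le_iInf fun hn => ?_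
  have : r ≠ 1 := by
    rintro rfl
    exact not_nontrivial_iff_subsingleton.2 h hn
  have h2 : 2 ≤ r := by omega
  exact_mod_cast h2

end ExtLemmas

section Reps

/-- The field with three elements. -/
abbrev kk : Type := ZMod 3

variable {R : Type} [Ring R] [Algebra kk R] (θ : MonoidAlgebra kk G18 ≃ₐ[kk] R)

/-- The image of a group element. -/
noncomputable def uu : G18 →* R := (θ : MonoidAlgebra kk G18 →* R).comp (MonoidAlgebra.of kk G18)

theorem uu_apply (g : G18) : uu θ g = θ (MonoidAlgebra.single g 1) := rfl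

/-- The underlying group of the module of a representation. -/
def Mo {V : Type} [AddCommGroup V] [Module kk V] (_ : Representation kk G18 V)
    (_ : MonoidAlgebra kk G18 ≃ₐ[kk] R) : Type := V

instance {V : Type} [AddCommGroup V] [Module kk V] (ρ : Representation kk G18 V) :
    AddCommGroup (Mo ρ θ) := inferInstanceAs (AddCommGroup V)

noncomputable instance {V : Type} [AddCommGroup V] [Module kk V] (ρ : Representation kk G18 V) :
    Module R (Mo ρ θ) :=
  Module.compHom V ((ρ.asAlgebraHom.comp (θ.symm : R →ₐ[kk] MonoidAlgebra kk G18) :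
    R →ₐ[kk] Module.End kk V) : R →+* Module.End kk V)

theorem Mo_smul {V : Type} [AddCommGroup V] [Module kk V] (ρ : Representation kk G18 V) (a : R)
    (v : V) : (a • (show Mo ρ θ from v) : Mo ρ θ) = ρ.asAlgebraHom (θ.symm a) v := rfl

theorem Mo_uu {V : Type} [AddCommGroup V] [Module kk V] (ρ : Representation kk G18 V) (g : G18)
    (v : V) : (uu θ g • (show Mo ρ θ from v) : Mo ρ θ) = ρ g v := by
  rw [Mo_smul, uu_apply, θ.symm_apply_apply, Representation.asAlgebraHom_single_one]

theorem linear_of_uu {S T : Type} [AddCommGroup S] [Module R S] [AddCommGroup T] [Module R T]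
    (f : S →+ T) (h : ∀ g v, f (uu θ g • v) = uu θ g • f v) (a : R) (v : S) :
    f (a • v) = a • f v := by
  obtain ⟨x, rfl⟩ := θ.surjective a
  induction x using MonoidAlgebra.induction_on with
  | of g => exact h g v
  | add x y hx hy => rw [map_add, add_smul, add_smul, map_add, hx, hy]
  | smul r x hx =>
    have e : θ (r • x) = (r.val : ℕ) • θ x := by
      rw [map_smul, ← Nat.cast_smul_eq_nsmul kk, ZMod.natCast_zmod_val]
    rw [e, smul_assoc, smul_assoc, map_nsmul, hx]

/-- The additive character. -/
def lam (g : G18) : kk := Multiplicative.toAdd g.1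

theorem lam_mul (g h : G18) : lam (g * h) = lam g + lam h := rfl

theorem lam_one : lam 1 = 0 := rfl

/-- The central element of order three. -/
def zz : G18 := (Multiplicative.ofAdd 1, 1)

theorem zz_comm (g : G18) : g * zz = zz * g := by
  revert g
  decide

theorem zz_pow : zz ^ 3 = 1 := by decide

theorem zz_central (a : R) : a * uu θ zz = uu θ zz * a := by
  obtain ⟨x, rfl⟩ := θ.surjective a
  rw [uu_apply, ← map_mul, ← map_mul]
  congr 1
  induction x using MonoidAlgebra.induction_on with
  | of g =>
    rw [MonoidAlgebra.of_apply, MonoidAlgebra.single_mul_single, MonoidAlgebra.single_mul_single,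
      zz_comm]
  | add x y hx hy => rw [add_mul, mul_add, hx, hy]
  | smul r x hx => rw [smul_mul_assoc, mul_smul_comm, hx]

theorem three_eq_zero : (3 : R) = 0 := by
  have h : algebraMap kk R 3 = 0 := by
    rw [show (3 : kk) = 0 from by decide, map_zero]
  rwa [map_ofNat] at h

/-- The central element acts trivially on a simple module. -/
theorem zz_smul {S : Type} [AddCommGroup S] [Module R S] [IsSimpleModule R S] (v : S) :
    uu θ zz • v = v := by
  let f : S →ₗ[R] S :=
    { toFun := fun v => (uu θ zz - 1) • v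
      map_add' := fun a b => smul_add _ _ _
      map_smul' := by
        intro a v
        rw [RingHom.id_apply, smul_smul, smul_smul, mul_sub, sub_mul, zz_central, mul_one,
          one_mul] }
  have hf3 : ∀ v, f (f (f v)) = 0 := by
    intro v
    show (uu θ zz - 1) • (uu θ zz - 1) • (uu θ zz - 1) • v = 0
    have e1 : uu θ zz * (uu θ zz * uu θ zz) = 1 := by
      rw [← map_mul, ← map_mul, show zz * (zz * zz) = 1 from by decide, map_one]
    have e2 : (uu θ zz - 1) * (uu θ zz - 1) * (uu θ zz - 1) =
        uu θ zz * (uu θ zz * uu θ zz) - 1 - 3 * (uu θ zz * uu θ zz) + 3 * uu θ zz := by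
      noncomm_ring
    rw [smul_smul, smul_smul, e2, e1, three_eq_zero]
    simp
  have hf : f = 0 := by
    rcases f.bijective_or_eq_zero with h | h
    · have := IsSimpleModule.nontrivial R S
      obtain ⟨v, hv⟩ := exists_ne (0 : S)
      exfalso
      apply hv
      apply h.1
      apply h.1
      apply h.1
      rw [hf3, map_zero, map_zero, map_zero]
    · exact h
  have h := LinearMap.congr_fun hf v
  have h' : (uu θ zz - 1) • v = 0 := h
  rw [sub_smul, one_smul, sub_eq_zero] at h'
  exact h'

section SelfExt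

variable (S : Type) [AddCommGroup S] [Module R S] [Module kk S]

/-- The representation on `S × S`. -/
noncomputable def rhoE : Representation kk G18 (S × S) where
  toFun g := AddMonoidHom.toZModLinearMap 3
    { toFun := fun x => (uu θ g • x.1, uu θ g • x.2 + lam g • (uu θ g • x.1))
      map_zero' := by simp
      map_add' := by
        intro a b
        simp only [Prod.fst_add, Prod.snd_add, smul_add, Prod.mk_add_mk]
        congr 1
        abel }
  map_one' := by
    refine LinearMap.ext fun x => ?_
    show (uu θ 1 • x.1, uu θ 1 • x.2 + lam 1 • (uu θ 1 • x.1)) = x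
    rw [lam_one, map_one, one_smul, one_smul, zero_smul, add_zero]
  map_mul' g h := by
    refine LinearMap.ext fun x => ?_
    show (uu θ (g * h) • x.1, uu θ (g * h) • x.2 + lam (g * h) • (uu θ (g * h) • x.1)) =
      (uu θ g • uu θ h • x.1, uu θ g • (uu θ h • x.2 + lam h • uu θ h • x.1) +
        lam g • (uu θ g • uu θ h • x.1))
    have e : ∀ (c : kk) (y : S), uu θ g • c • y = c • uu θ g • y := by
      intro c y
      have := (AddMonoidHom.toZModLinearMap 3 (DistribSMul.toAddMonoidHom S (uu θ g))).map_smul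
        c y
      exact this
    rw [lam_mul, map_mul, mul_smul, mul_smul, smul_add, e, add_smul]
    congr 1
    abel

/-- The short complex `0 → S → E → S → 0`. -/
noncomputable def scE : ShortComplex (ModuleCat.{0} R) where
  X₁ := ModuleCat.of R S
  X₂ := ModuleCat.of R (Mo (rhoE θ S) θ)
  X₃ := ModuleCat.of R S
  f := ModuleCat.ofHom
    { toFun := fun v => (show Mo (rhoE θ S) θ from ((0, v) : S × S))
      map_add' := fun a b => Prod.ext (add_zero (0 : S)).symm rfl
      map_smul' := linear_of_uu θ (T := Mo (rhoE θ S) θ)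
        { toFun := fun v => ((0, v) : S × S)
          map_zero' := rfl
          map_add' := fun a b => Prod.ext (add_zero (0 : S)).symm rfl } (fun g v => by
              refine Eq.trans ?_ (Mo_uu θ (rhoE θ S) g ((0, v) : S × S)).symm
              show ((0, uu θ g • v) : S × S) =
                (uu θ g • (0 : S), uu θ g • v + lam g • (uu θ g • (0 : S)))
              simp) }
  g := ModuleCat.ofHom
    { toFun := fun x => (show S × S from x).1
      map_add' := fun a b => rfl
      map_smul' := linear_of_uu θ (S := Mo (rhoE θ S) θ)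
        { toFun := fun x => (show S × S from x).1
          map_zero' := rfl
          map_add' := fun a b => rfl } (fun g v => by
              have := Mo_uu θ (rhoE θ S) g (show S × S from v)
              show (show S × S from (uu θ g • v : Mo (rhoE θ S) θ)).1 = _
              exact congrArg (fun x : S × S => x.1) this) }
  zero := by
    ext v
    rfl

theorem scE_exact : (scE θ S).ShortExact where
  exact := by
    rw [ShortComplex.moduleCat_exact_iff]
    intro x hx
    refine ⟨(show S × S from x).2, ?_⟩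
    have hx' : (show S × S from x).1 = 0 := hx
    exact Prod.ext hx'.symm rfl
  mono_f := by
    rw [ModuleCat.mono_iff_injective]
    intro a b h
    exact congrArg (fun x : S × S => x.2) (show (((0 : S), a) : S × S) = (0, b) from h)
  epi_g := by
    rw [ModuleCat.epi_iff_surjective]
    intro a
    exact ⟨((a, 0) : S × S), rfl⟩

theorem scE_not_split [IsSimpleModule R S] (s : (scE θ S).X₃ ⟶ (scE θ S).X₂) :
    s ≫ (scE θ S).g ≠ 𝟙 _ := by
  intro h
  have := IsSimpleModule.nontrivial R S
  obtain ⟨v, hv⟩ := exists_ne (0 : S)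
  let t : S →ₗ[R] Mo (rhoE θ S) θ := s.hom
  have ht : ∀ v : S, (show S × S from t v).1 = v := by
    intro v
    have := congrArg (fun f : (scE θ S).X₃ ⟶ (scE θ S).X₃ => f.hom v) h
    exact this
  have h1 : t (uu θ zz • v) = uu θ zz • t v := t.map_smul _ _
  rw [zz_smul] at h1
  have h2 := Mo_uu θ (rhoE θ S) zz (show S × S from t v)
  have h3 : (show S × S from t v) = (rhoE θ S) zz (show S × S from t v) := h1.trans h2
  have h4 : (rhoE θ S) zz (show S × S from t v) = (uu θ zz • (show S × S from t v).1,
    uu θ zz • (show S × S from t v).2 + lam zz • (uu θ zz • (show S × S from t v).1)) := rfl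
  rw [h4, zz_smul, zz_smul, ht] at h3
  have h5 := congrArg (fun x : S × S => x.2) h3
  simp only at h5
  have h6 : lam zz • v = 0 := by
    have : (show S × S from t v).2 = (show S × S from t v).2 + lam zz • v := h5
    exact (left_eq_add.1 this)
  have h7 : lam zz = 1 := rfl
  rw [h7, one_smul] at h6
  exact hv h6

end SelfExt

include θ in
theorem simple_ext (S : ModuleCat.{0} R) (hS : IsSimpleModule R S) : Nontrivial (Ext S S 1) := by
  let : Module kk S := Module.compHom S (algebraMap kk R)
  exact ext_one_nontrivial (scE_exact θ S) (scE_not_split θ S)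

/-- The permutation representation of `G18` on the functions on its quotient `C₃`. -/
def rhoM : Representation kk G18 (kk → kk) where
  toFun g :=
    { toFun := fun f i => f (i - lam g)
      map_add' := fun _ _ => rfl
      map_smul' := fun _ _ => rfl }
  map_one' := by
    refine LinearMap.ext fun f => funext fun i => ?_
    show f (i - lam 1) = f i
    rw [lam_one, sub_zero]
  map_mul' g h := by
    refine LinearMap.ext fun f => funext fun i => ?_
    show f (i - lam (g * h)) = f (i - lam g - lam h)
    rw [lam_mul, sub_sub]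

/-- The generator. -/
def m0 : kk → kk := Pi.single 0 1

theorem act (x : MonoidAlgebra kk G18) (j : kk) : (rhoM.asAlgebraHom x m0) j =
    ∑ h : DihedralGroup 3, x.coeff (Multiplicative.ofAdd j, h) := by
  induction x using MonoidAlgebra.induction_linear with
  | zero => simp
  | add x y hx hy =>
    rw [map_add, LinearMap.add_apply, Pi.add_apply, hx, hy, ← Finset.sum_add_distrib]
    rfl
  | single g r =>
    rw [Representation.asAlgebraHom_single]
    obtain ⟨c, h0⟩ := g
    show r * m0 (j - lam (c, h0)) = _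
    have h1 : ∀ h : DihedralGroup 3, (MonoidAlgebra.single (c, h0) r).coeff
        (Multiplicative.ofAdd j, h) = if h = h0 then (if j = Multiplicative.toAdd c then r else 0)
          else 0 := by
      intro h
      rw [MonoidAlgebra.coeff_single, Finsupp.single_apply]
      by_cases h1 : h = h0
      · subst h1
        rw [if_pos rfl]
        by_cases h2 : j = Multiplicative.toAdd c
        · rw [if_pos h2, if_pos]
          rw [h2]
          rfl
        · rw [if_neg h2, if_neg]
          intro h3
          apply h2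
          have := congrArg (fun g : G18 => Multiplicative.toAdd g.1) h3
          exact this.symm
      · rw [if_neg h1, if_neg]
        intro h3
        exact h1 (congrArg (fun g : G18 => g.2) h3).symm
    simp only [h1]
    rw [Finset.sum_ite_eq' Finset.univ h0, if_pos (Finset.mem_univ _)]
    show r * m0 (j - Multiplicative.toAdd c) = _
    by_cases h2 : j = Multiplicative.toAdd c
    · rw [if_pos h2, h2, sub_self, m0, Pi.single_eq_same, mul_one]
    · rw [if_neg h2, m0, Pi.single_eq_of_ne (sub_ne_zero.2 h2), mul_zero]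

/-- The module `M`. -/
abbrev MM : Type := Mo rhoM θ

/-- The generator as an element of the module. -/
def mm : MM θ := m0

/-- The projection of the regular module onto `M`. -/
noncomputable def pr : R →ₗ[R] MM θ := LinearMap.toSpanSingleton R (MM θ) (mm θ)

theorem pr_apply (a : R) (j : kk) : (show kk → kk from pr θ a) j =
    ∑ h : DihedralGroup 3, (θ.symm a).coeff (Multiplicative.ofAdd j, h) := by
  rw [← act]
  rfl

theorem pr_surj : Function.Surjective (pr θ) := by
  intro f
  refine ⟨θ (∑ j : kk, MonoidAlgebra.single (Multiplicative.ofAdd j, 1)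
    ((show kk → kk from f) j)), ?_⟩
  show rhoM.asAlgebraHom (θ.symm (θ _)) m0 = f
  rw [θ.symm_apply_apply, map_sum]
  refine funext fun i => ?_
  rw [LinearMap.sum_apply, Finset.sum_apply]
  have h1 : ∀ j : kk, (rhoM.asAlgebraHom (MonoidAlgebra.single
      ((Multiplicative.ofAdd j, 1) : G18) ((show kk → kk from f) j)) m0) i =
      if j = i then (show kk → kk from f) i else 0 := by
    intro j
    rw [Representation.asAlgebraHom_single]
    show (show kk → kk from f) j * m0 (i - j) = _
    by_cases h : j = i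
    · rw [if_pos h, h, sub_self, m0, Pi.single_eq_same, mul_one]
    · rw [if_neg h, m0, Pi.single_eq_of_ne (sub_ne_zero.2 (Ne.symm h)), mul_zero]
  simp only [h1]
  rw [Finset.sum_ite_eq' Finset.univ i, if_pos (Finset.mem_univ _)]

theorem uu_D_smul (h : DihedralGroup 3) (v : MM θ) : uu θ (1, h) • v = v := by
  refine (Mo_uu θ rhoM (1, h) (show kk → kk from v)).trans ?_
  refine funext fun i => ?_
  show (show kk → kk from v) (i - 0) = (show kk → kk from v) i
  rw [sub_zero]

theorem kap_mem (h : DihedralGroup 3) : uu θ (1, h) - 1 ∈ LinearMap.ker (pr θ) := by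
  rw [LinearMap.mem_ker]
  show (uu θ (1, h) - 1) • mm θ = 0
  rw [sub_smul, one_smul, uu_D_smul, sub_self]

/-- The generators of the kernel. -/
noncomputable def kap (h : DihedralGroup 3) : LinearMap.ker (pr θ) :=
  ⟨uu θ (1, h) - 1, kap_mem θ h⟩

theorem two_nsmul_eq_zero {V : Type} [AddCommGroup V] [Module R V] (v : V) (h : v + v = 0) :
    v = 0 := by
  have h3 : (3 : R) • v = 0 := by rw [three_eq_zero, zero_smul]
  have h4 : (3 : R) • v = v + v + v := by
    rw [show (3 : R) = 1 + 1 + 1 from by norm_num, add_smul, add_smul, one_smul]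
  rw [h4, h, zero_add] at h3
  exact h3

theorem f_kap_sr (f : LinearMap.ker (pr θ) →ₗ[R] MM θ) (i : ZMod 3) :
    f (kap θ (DihedralGroup.sr i)) = 0 := by
  apply two_nsmul_eq_zero (R := R)
  have h1 : (uu θ (1, DihedralGroup.sr i) + 1) • kap θ (DihedralGroup.sr i) = 0 := by
    apply Subtype.ext
    show (uu θ (1, DihedralGroup.sr i) + 1) * (uu θ (1, DihedralGroup.sr i) - 1) = 0
    have h2 : uu θ (1, DihedralGroup.sr i) * uu θ (1, DihedralGroup.sr i) = 1 := by
      rw [← map_mul]
      have : ((1, DihedralGroup.sr i) : G18) * (1, DihedralGroup.sr i) = 1 := by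
        revert i
        decide
      rw [this, map_one]
    have h3 : (uu θ (1, DihedralGroup.sr i) + 1) * (uu θ (1, DihedralGroup.sr i) - 1) =
        uu θ (1, DihedralGroup.sr i) * uu θ (1, DihedralGroup.sr i) - 1 := by noncomm_ring
    rw [h3, h2, sub_self]
  have h2 := congrArg f h1
  rw [map_smul, map_zero, add_smul, one_smul, uu_D_smul] at h2
  exact h2

theorem f_kap_mul (f : LinearMap.ker (pr θ) →ₗ[R] MM θ) (h h' : DihedralGroup 3)
    (h1 : f (kap θ h) = 0) (h2 : f (kap θ h') = 0) : f (kap θ (h * h')) = 0 := by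
  have h3 : kap θ (h * h') = uu θ (1, h) • kap θ h' + kap θ h := by
    apply Subtype.ext
    show uu θ (1, h * h') - 1 = uu θ (1, h) * (uu θ (1, h') - 1) + (uu θ (1, h) - 1)
    have : uu θ (1, h * h') = uu θ (1, h) * uu θ (1, h') := by
      rw [← map_mul]
      rfl
    rw [this]
    noncomm_ring
  rw [h3, map_add, map_smul, h1, h2, smul_zero, add_zero]

theorem f_kap (f : LinearMap.ker (pr θ) →ₗ[R] MM θ) (h : DihedralGroup 3) :
    f (kap θ h) = 0 := by
  rcases h with i | i
  · have h1 := f_kap_mul θ f (DihedralGroup.sr 0) (DihedralGroup.sr i) (f_kap_sr θ f 0)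
      (f_kap_sr θ f i)
    rw [DihedralGroup.sr_mul_sr, sub_zero] at h1
    exact h1
  · exact f_kap_sr θ f i

theorem expand (x : MonoidAlgebra kk G18) :
    x = ∑ g : G18, MonoidAlgebra.single g (x.coeff g) := by
  conv_lhs => rw [← MonoidAlgebra.sum_coeff_single x]
  rw [Finsupp.sum_fintype _ _ (fun g => MonoidAlgebra.single_zero g)]

theorem expand' (a : R) : a = ∑ c : Multiplicative (ZMod 3), ∑ h : DihedralGroup 3,
    (algebraMap kk R ((θ.symm a).coeff (c, h)) * uu θ (c, 1)) * uu θ (1, h) := by
  have h1 := congrArg θ (expand (θ.symm a))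
  rw [θ.apply_symm_apply, map_sum, Fintype.sum_prod_type] at h1
  conv_lhs => rw [h1]
  refine Finset.sum_congr rfl fun c _ => Finset.sum_congr rfl fun h _ => ?_
  rw [mul_assoc, ← map_mul, ← Algebra.smul_def, uu_apply, ← map_smul, MonoidAlgebra.smul_single,
    smul_eq_mul, mul_one]
  congr 2
  rw [Prod.mk_mul_mk, mul_one, one_mul]

theorem hom_eq_zero (f : LinearMap.ker (pr θ) →ₗ[R] MM θ) : f = 0 := by
  refine LinearMap.ext fun a => ?_
  have h0 : ∀ c : Multiplicative (ZMod 3),
      ∑ h : DihedralGroup 3, (θ.symm (a : R)).coeff (c, h) = 0 := by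
    intro c
    have h1 : pr θ a = 0 := a.2
    have h2 := pr_apply θ (a : R) (Multiplicative.toAdd c)
    rw [h1] at h2
    exact h2.symm
  have key : a = ∑ c : Multiplicative (ZMod 3), ∑ h : DihedralGroup 3,
      (algebraMap kk R ((θ.symm (a : R)).coeff (c, h)) * uu θ (c, 1)) • kap θ h := by
    apply Subtype.ext
    rw [AddSubmonoidClass.coe_finsetSum]
    have h1 := expand' θ (a : R)
    have h2 : ∀ c : Multiplicative (ZMod 3), ((∑ h : DihedralGroup 3,
        (algebraMap kk R ((θ.symm (a : R)).coeff (c, h)) * uu θ (c, 1)) • kap θ h :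
          LinearMap.ker (pr θ)) : R) = ∑ h : DihedralGroup 3,
        (algebraMap kk R ((θ.symm (a : R)).coeff (c, h)) * uu θ (c, 1)) * uu θ (1, h) := by
      intro c
      rw [AddSubmonoidClass.coe_finsetSum]
      have h3 : ∀ h : DihedralGroup 3, (((algebraMap kk R ((θ.symm (a : R)).coeff (c, h)) *
          uu θ (c, 1)) • kap θ h : LinearMap.ker (pr θ)) : R) =
          (algebraMap kk R ((θ.symm (a : R)).coeff (c, h)) * uu θ (c, 1)) * uu θ (1, h) -
          algebraMap kk R ((θ.symm (a : R)).coeff (c, h)) * uu θ (c, 1) := by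
        intro h
        show (algebraMap kk R ((θ.symm (a : R)).coeff (c, h)) * uu θ (c, 1)) *
          (uu θ (1, h) - 1) = _
        rw [mul_sub, mul_one]
      simp only [h3]
      rw [Finset.sum_sub_distrib, ← Finset.sum_mul, ← map_sum, h0, map_zero, zero_mul, sub_zero]
    simp only [h2]
    exact h1
  rw [key, map_sum]
  refine Finset.sum_eq_zero fun c _ => ?_
  rw [map_sum]
  refine Finset.sum_eq_zero fun h _ => ?_
  rw [map_smul, f_kap, smul_zero]

theorem MM_ext : Subsingleton (Ext (ModuleCat.of R (MM θ)) (ModuleCat.of R (MM θ)) 1) := by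
  have : Projective (pr θ).shortComplexKer.X₂ :=
    (IsProjective.iff_projective (ModuleCat.of R R)).1 inferInstance
  refine ext_one_subsingleton (LinearMap.shortExact_shortComplexKer (pr_surj θ))
    (ModuleCat.of R (MM θ)) fun f => ?_
  apply ModuleCat.hom_ext
  exact hom_eq_zero θ f.hom

theorem MM_finite : Module.Finite R (MM θ) := Module.Finite.of_surjective (pr θ) (pr_surj θ)

theorem MM_not_projective : ¬ Module.Projective R (MM θ) := by
  intro hP
  obtain ⟨s, hs⟩ := Module.projective_lifting_property (pr θ) LinearMap.id (pr_surj θ)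
  set b := s (mm θ) with hb
  have h1 : pr θ b = mm θ := LinearMap.congr_fun hs (mm θ)
  have h2 : ∀ h : DihedralGroup 3, uu θ (1, h) * b = b := by
    intro h
    rw [hb, ← smul_eq_mul, ← map_smul, uu_D_smul]
  have h3 : ∀ (c : Multiplicative (ZMod 3)) (h : DihedralGroup 3),
      (θ.symm b).coeff (c, h) = (θ.symm b).coeff (c, 1) := by
    intro c h
    have h4 := congrArg θ.symm (h2 h)
    rw [map_mul, uu_apply, θ.symm_apply_apply] at h4
    have h5 := congrArg (fun x : MonoidAlgebra kk G18 => x.coeff (c, h)) h4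
    simp only [MonoidAlgebra.coeff_single_mul_apply, one_mul] at h5
    rw [← h5]
    congr 1
    show ((1, h) : G18)⁻¹ * (c, h) = (c, 1)
    rw [Prod.inv_mk, Prod.mk_mul_mk, inv_one, one_mul, inv_mul_cancel]
  have h4 := pr_apply θ b 0
  rw [h1] at h4
  simp only [h3] at h4
  rw [Finset.sum_const, Finset.card_univ] at h4
  have h5 : Fintype.card (DihedralGroup 3) = 6 := by decide
  rw [h5] at h4
  have h6 : (6 : ℕ) • (θ.symm b).coeff (Multiplicative.ofAdd 0, 1) = (0 : kk) := by
    rw [← Nat.cast_smul_eq_nsmul kk, show ((6 : ℕ) : kk) = 0 from by decide, zero_smul]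
  rw [h6] at h4
  have h7 : (1 : kk) = 0 := h4
  exact absurd h7 (by decide)

end Reps

section Block

open DihedralGroup

/-- The group algebra. -/
abbrev AA : Type := MonoidAlgebra kk G18

/-- The type of the central `3`-elements. -/
abbrev C3 : Type := Multiplicative (ZMod 3)

/-- A sum of rotations. -/
noncomputable def NR (c : C3) : AA := ∑ i : ZMod 3, MonoidAlgebra.single (c, r i) 1

/-- A sum of reflections. -/
noncomputable def NS (c : C3) : AA := ∑ i : ZMod 3, MonoidAlgebra.single (c, sr i) 1

theorem r_NR (c' c : C3) (j : ZMod 3) :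
    (MonoidAlgebra.single (c', r j) 1 : AA) * NR c = NR (c' * c) := by
  simp only [NR, Finset.mul_sum, MonoidAlgebra.single_mul_single, Prod.mk_mul_mk, r_mul_r, mul_one]
  exact Fintype.sum_equiv (Equiv.addLeft j) _ _ fun i => rfl

theorem NR_r (c' c : C3) (j : ZMod 3) :
    NR c * (MonoidAlgebra.single (c', r j) 1 : AA) = NR (c * c') := by
  simp only [NR, Finset.sum_mul, MonoidAlgebra.single_mul_single, Prod.mk_mul_mk, r_mul_r, mul_one]
  exact Fintype.sum_equiv (Equiv.addRight j) _ _ fun i => rfl

theorem sr_NR (c' c : C3) (j : ZMod 3) :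
    (MonoidAlgebra.single (c', sr j) 1 : AA) * NR c = NS (c' * c) := by
  simp only [NR, NS, Finset.mul_sum, MonoidAlgebra.single_mul_single, Prod.mk_mul_mk, sr_mul_r,
    mul_one]
  exact Fintype.sum_equiv (Equiv.addLeft j) _ _ fun i => rfl

theorem NR_sr (c' c : C3) (j : ZMod 3) :
    NR c * (MonoidAlgebra.single (c', sr j) 1 : AA) = NS (c * c') := by
  simp only [NR, NS, Finset.sum_mul, MonoidAlgebra.single_mul_single, Prod.mk_mul_mk, r_mul_sr,
    mul_one]
  exact Fintype.sum_equiv (Equiv.subLeft j) _ _ fun i => rfl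

theorem r_NS (c' c : C3) (j : ZMod 3) :
    (MonoidAlgebra.single (c', r j) 1 : AA) * NS c = NS (c' * c) := by
  simp only [NS, Finset.mul_sum, MonoidAlgebra.single_mul_single, Prod.mk_mul_mk, r_mul_sr,
    mul_one]
  exact Fintype.sum_equiv (Equiv.subRight j) _ _ fun i => rfl

theorem NS_r (c' c : C3) (j : ZMod 3) :
    NS c * (MonoidAlgebra.single (c', r j) 1 : AA) = NS (c * c') := by
  simp only [NS, Finset.sum_mul, MonoidAlgebra.single_mul_single, Prod.mk_mul_mk, sr_mul_r,
    mul_one]
  exact Fintype.sum_equiv (Equiv.addRight j) _ _ fun i => rfl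

theorem sr_NS (c' c : C3) (j : ZMod 3) :
    (MonoidAlgebra.single (c', sr j) 1 : AA) * NS c = NR (c' * c) := by
  simp only [NR, NS, Finset.mul_sum, MonoidAlgebra.single_mul_single, Prod.mk_mul_mk, sr_mul_sr,
    mul_one]
  exact Fintype.sum_equiv (Equiv.subRight j) _ _ fun i => rfl

theorem NS_sr (c' c : C3) (j : ZMod 3) :
    NS c * (MonoidAlgebra.single (c', sr j) 1 : AA) = NR (c * c') := by
  simp only [NR, NS, Finset.sum_mul, MonoidAlgebra.single_mul_single, Prod.mk_mul_mk, sr_mul_sr,
    mul_one]
  exact Fintype.sum_equiv (Equiv.subLeft j) _ _ fun i => rfl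

theorem central_of_single (z : AA)
    (h : ∀ g : G18, MonoidAlgebra.single g 1 * z = z * MonoidAlgebra.single g 1) :
    z ∈ Subalgebra.center kk AA := by
  rw [Subalgebra.mem_center_iff]
  intro x
  induction x using MonoidAlgebra.induction_on with
  | of g => exact h g
  | add x y hx hy => rw [add_mul, mul_add, hx, hy]
  | smul r x hx => rw [smul_mul_assoc, mul_smul_comm, hx]

theorem NR_central (c : C3) : NR c ∈ Subalgebra.center kk AA := by
  refine central_of_single _ fun g => ?_
  obtain ⟨c', j | j⟩ := g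
  · rw [r_NR, NR_r, mul_comm]
  · rw [sr_NR, NR_sr, mul_comm]

theorem NS_central (c : C3) : NS c ∈ Subalgebra.center kk AA := by
  refine central_of_single _ fun g => ?_
  obtain ⟨c', j | j⟩ := g
  · rw [r_NS, NS_r, mul_comm]
  · rw [sr_NS, NS_sr, mul_comm]

theorem y_central (c : C3) :
    (MonoidAlgebra.single (c, 1) 1 : AA) ∈ Subalgebra.center kk AA := by
  refine central_of_single _ fun g => ?_
  obtain ⟨c', h⟩ := g
  rw [MonoidAlgebra.single_mul_single, MonoidAlgebra.single_mul_single, Prod.mk_mul_mk,
    Prod.mk_mul_mk, mul_one h, one_mul h, mul_comm c' c]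

theorem three_smul_AA (x : AA) : ∑ _i : ZMod 3, x = 0 := by
  rw [Finset.sum_const, Finset.card_univ, ZMod.card, ← Nat.cast_smul_eq_nsmul kk,
    show ((3 : ℕ) : kk) = 0 from by decide, zero_smul]

theorem NR_mul (c c' : C3) : NR c * NR c' = 0 := by
  conv_lhs => rw [NR, Finset.sum_mul]
  simp only [r_NR]
  exact three_smul_AA _

theorem NS_mul (c c' : C3) : NS c * NS c' = 0 := by
  conv_lhs => rw [NS, Finset.sum_mul]
  simp only [sr_NS]
  exact three_smul_AA _

/-- The dihedral group as a disjoint union. -/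
def dEquiv : ZMod 3 ⊕ ZMod 3 ≃ DihedralGroup 3 where
  toFun := Sum.elim r sr
  invFun
    | r i => Sum.inl i
    | sr i => Sum.inr i
  left_inv := by rintro (i | i) <;> rfl
  right_inv := by rintro (i | i) <;> rfl

theorem coeff_conj (e : AA) (he : ∀ x : AA, x * e = e * x) (g x : G18) :
    e.coeff (x * g * x⁻¹) = e.coeff g := by
  have h := congrArg (fun y : AA => y.coeff (x * g)) (he (MonoidAlgebra.single x 1))
  simp only [MonoidAlgebra.coeff_single_mul_apply, MonoidAlgebra.coeff_mul_single_apply, one_mul,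
    mul_one, inv_mul_cancel_left] at h
  exact h.symm

theorem e_expand (e : AA) (he : ∀ x : AA, x * e = e * x) : e = ∑ c : C3,
    ((e.coeff (c, 1) - e.coeff (c, r 1)) • (MonoidAlgebra.single (c, 1) 1 : AA) +
      e.coeff (c, r 1) • NR c + e.coeff (c, sr 0) • NS c) := by
  conv_lhs => rw [expand e]
  rw [Fintype.sum_prod_type]
  refine Finset.sum_congr rfl fun c _ => ?_
  rw [← Fintype.sum_equiv dEquiv (fun x => MonoidAlgebra.single (c, dEquiv x)
    (e.coeff (c, dEquiv x))) _ (fun x => rfl), Fintype.sum_sum_type]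
  have h1 : ∀ i : ZMod 3, e.coeff (c, sr i) = e.coeff (c, sr 0) := by
    intro i
    have h2 := coeff_conj e he (c, sr 0) (1, r i)
    have h3 : ((1, r i) : G18) * (c, sr 0) * (1, r i)⁻¹ = (c, sr i) := by
      clear * -
      revert c i
      decide
    rw [h3] at h2
    exact h2
  have h2 : e.coeff (c, r 2) = e.coeff (c, r 1) := by
    have h2 := coeff_conj e he (c, r 1) (1, sr 0)
    have h3 : ((1, sr 0) : G18) * (c, r 1) * (1, sr 0)⁻¹ = (c, r 2) := by
      clear * -
      revert c
      decide
    rw [h3] at h2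
    exact h2
  have h3 : ∑ i : ZMod 3, (MonoidAlgebra.single (c, dEquiv (Sum.inr i))
      (e.coeff (c, dEquiv (Sum.inr i))) : AA) = e.coeff (c, sr 0) • NS c := by
    rw [NS, Finset.smul_sum]
    refine Finset.sum_congr rfl fun i _ => ?_
    rw [MonoidAlgebra.smul_single, smul_eq_mul, mul_one]
    show MonoidAlgebra.single (c, sr i) (e.coeff (c, sr i)) = _
    rw [h1]
  have h4 : ∑ i : ZMod 3, (MonoidAlgebra.single (c, dEquiv (Sum.inl i))
      (e.coeff (c, dEquiv (Sum.inl i))) : AA) =
      (e.coeff (c, 1) - e.coeff (c, r 1)) • (MonoidAlgebra.single (c, 1) 1 : AA) +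
        e.coeff (c, r 1) • NR c := by
    have h5 : ∀ f : ZMod 3 → AA, ∑ i : ZMod 3, f i = f 0 + f 1 + f 2 := fun f => Fin.sum_univ_three f
    rw [NR, h5, h5]
    show MonoidAlgebra.single (c, r 0) (e.coeff (c, r 0)) +
      MonoidAlgebra.single (c, r 1) (e.coeff (c, r 1)) +
      MonoidAlgebra.single (c, r 2) (e.coeff (c, r 2)) = _
    rw [h2, smul_add, smul_add, MonoidAlgebra.smul_single, MonoidAlgebra.smul_single,
      MonoidAlgebra.smul_single, MonoidAlgebra.smul_single, smul_eq_mul, smul_eq_mul, mul_one,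
      mul_one, DihedralGroup.r_zero]
    rw [← add_assoc, ← add_assoc, ← MonoidAlgebra.single_add, sub_add_cancel]
  rw [h3, h4]

theorem cube_one (c : C3) : ((c, 1) : G18) ^ 3 = 1 := by
  revert c
  decide

theorem idem_kk : ∀ l : kk, l * l = l → l = 0 ∨ l = 1 := by decide

theorem idempotent_trivial (e : AA) (he : ∀ x : AA, x * e = e * x) (hee : e * e = e) :
    e = 0 ∨ e = 1 := by
  let Z := Subalgebra.center kk AA
  have heZ : e ∈ Z := Subalgebra.mem_center_iff.2 he
  have : CharP Z 3 := charP_of_injective_algebraMap (algebraMap kk Z).injective 3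
  have : Fact (Nat.Prime 3) := ⟨Nat.prime_three⟩
  let eZ : Z := ⟨e, heZ⟩
  have h1 : eZ = ∑ c : C3,
      ((e.coeff (c, 1) - e.coeff (c, r 1)) • (⟨_, y_central c⟩ : Z) +
      e.coeff (c, r 1) • (⟨NR c, NR_central c⟩ : Z) +
      e.coeff (c, sr 0) • (⟨NS c, NS_central c⟩ : Z)) := by
    apply Subtype.ext
    rw [AddSubmonoidClass.coe_finsetSum]
    exact e_expand e he
  have h2 : eZ ^ 3 = (∑ c : C3, (e.coeff (c, 1) - e.coeff (c, r 1)) ^ 3) • (1 : Z) := by
    rw [h1, sum_pow_char, Finset.sum_smul]
    refine Finset.sum_congr rfl fun c _ => ?_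
    rw [add_pow_char, add_pow_char, smul_pow, smul_pow, smul_pow]
    have e1 : (⟨_, y_central c⟩ : Z) ^ 3 = 1 := by
      apply Subtype.ext
      show (MonoidAlgebra.single (c, 1) 1 : AA) ^ 3 = 1
      rw [MonoidAlgebra.single_pow, one_pow]
      rw [cube_one]
      rfl
    have e2 : (⟨NR c, NR_central c⟩ : Z) ^ 3 = 0 := by
      apply Subtype.ext
      show NR c ^ 3 = 0
      rw [pow_succ, pow_two, NR_mul, zero_mul]
    have e3 : (⟨NS c, NS_central c⟩ : Z) ^ 3 = 0 := by
      apply Subtype.ext
      show NS c ^ 3 = 0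
      rw [pow_succ, pow_two, NS_mul, zero_mul]
    rw [e1, e2, e3, smul_zero, smul_zero, add_zero, add_zero]
  set l : kk := ∑ c : C3, (e.coeff (c, 1) - e.coeff (c, r 1)) ^ 3
  have h3 : e = l • (1 : AA) := by
    have h4 := congrArg Subtype.val h2
    have h5 : e ^ 3 = l • (1 : AA) := h4
    rw [pow_succ, pow_two, hee, hee] at h5
    exact h5
  have h4 : l * l = l := by
    rw [h3, smul_mul_smul_comm, one_mul] at hee
    exact smul_left_injective kk (one_ne_zero : (1 : AA) ≠ 0) hee
  rcases idem_kk l h4 with h | h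
  · left
    rw [h3, h, zero_smul]
  · right
    rw [h3, h, one_smul]

/-- The antipode, as a homomorphism to the opposite algebra. -/
noncomputable def anti : AA →ₐ[kk] AAᵐᵒᵖ :=
  MonoidAlgebra.lift kk AAᵐᵒᵖ G18
    { toFun := fun g => MulOpposite.op (MonoidAlgebra.single g⁻¹ 1)
      map_one' := by
        rw [inv_one]
        rfl
      map_mul' := fun g h => by
        rw [← MulOpposite.op_mul, MonoidAlgebra.single_mul_single, mul_inv_rev, mul_one] }

theorem anti_single (g : G18) :
    anti (MonoidAlgebra.single g 1) = MulOpposite.op (MonoidAlgebra.single g⁻¹ 1) := by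
  rw [anti, MonoidAlgebra.lift_single, one_smul]
  rfl

theorem anti_surj : Function.Surjective anti := by
  intro y
  obtain ⟨x, rfl⟩ := MulOpposite.op_surjective y
  induction x using MonoidAlgebra.induction_on with
  | of g => exact ⟨MonoidAlgebra.single g⁻¹ 1, by rw [anti_single, inv_inv]; rfl⟩
  | add x y hx hy =>
    obtain ⟨a, ha⟩ := hx
    obtain ⟨b, hb⟩ := hy
    exact ⟨a + b, by rw [map_add, ha, hb]; rfl⟩
  | smul r x hx =>
    obtain ⟨a, ha⟩ := hx
    exact ⟨r • a, by rw [map_smul, ha]; rfl⟩

theorem anti_inj : Function.Injective anti := by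
  have h : ∀ x : AA, (anti (anti x).unop).unop = x := by
    intro x
    induction x using MonoidAlgebra.induction_on with
    | of g =>
      rw [MonoidAlgebra.of_apply, anti_single, MulOpposite.unop_op, anti_single,
        MulOpposite.unop_op, inv_inv]
    | add x y hx hy => rw [map_add, MulOpposite.unop_add, map_add, MulOpposite.unop_add, hx, hy]
    | smul r x hx =>
      rw [map_smul, MulOpposite.unop_smul, map_smul, MulOpposite.unop_smul, hx]
  intro x y hxy
  rw [← h x, ← h y, hxy]

/-- The antipode, as an isomorphism to the opposite algebra. -/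
noncomputable def antiEquiv : AA ≃ₐ[kk] AAᵐᵒᵖ :=
  AlgEquiv.ofBijective anti ⟨anti_inj, anti_surj⟩

/-- The homomorphism to the zero algebra. -/
def toUnit : AA →ₐ[kk] PUnit where
  toFun _ := PUnit.unit
  map_one' := rfl
  map_mul' _ _ := rfl
  map_zero' := rfl
  map_add' _ _ := rfl
  commutes' _ := rfl

theorem isBlock_AA : IsBlock kk AA AA := by
  refine ⟨inferInstance, fun e he hee => ?_, PUnit, inferInstance, inferInstance, ⟨?_⟩⟩
  · rw [Subring.mem_center_iff] at he
    exact idempotent_trivial e he hee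
  · refine AlgEquiv.ofBijective ((AlgHom.id kk AA).prod toUnit) ⟨?_, ?_⟩
    · intro x y h
      exact congrArg (fun z : AA × PUnit => z.1) h
    · rintro ⟨x, u⟩
      exact ⟨x, rfl⟩

end Block

/-- The group algebra `B` of `C₃ × S₃` over `𝔽₃` is a block (of itself), it is not semisimple, and
there is a finitely generated non-projective right `B`-module `M` such that `φ_S < φ_M` for every
simple right `B`-module `S`. (Right `B`-modules are modules over `Bᵐᵒᵖ`.) -/
theorem result :
    IsBlock (ZMod 3) (MonoidAlgebra (ZMod 3) G18) (MonoidAlgebra (ZMod 3) G18) ∧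
    ¬ IsSemisimpleRing (MonoidAlgebra (ZMod 3) G18) ∧
    ∃ M : ModuleCat.{0} (MonoidAlgebra (ZMod 3) G18)ᵐᵒᵖ,
      Module.Finite (MonoidAlgebra (ZMod 3) G18)ᵐᵒᵖ M ∧
      ¬ Module.Projective (MonoidAlgebra (ZMod 3) G18)ᵐᵒᵖ M ∧
      ∀ S : ModuleCat.{0} (MonoidAlgebra (ZMod 3) G18)ᵐᵒᵖ,
        IsSimpleModule (MonoidAlgebra (ZMod 3) G18)ᵐᵒᵖ S → phi S < phi M := by
  refine ⟨isBlock_AA, ?_, ModuleCat.of _ (MM antiEquiv), MM_finite antiEquiv,
    MM_not_projective antiEquiv, ?_⟩
  · intro h
    have : IsSemisimpleRing AAᵐᵒᵖ := isSemisimpleRing_mulOpposite_iff.2 h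
    exact MM_not_projective antiEquiv (Module.projective_of_isSemisimpleRing _ _)
  · intro S hS
    rw [phi_eq_one S (simple_ext antiEquiv S hS)]
    refine lt_of_lt_of_le ?_ (two_le_phi _ (MM_ext antiEquiv))
    norm_num

end Pool.Agent.Results.MP_f9a7a1_al.CyclicTimesSymmetric
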